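import Pool.Agent.TH703.HU.Stm
import Pool.Agent.TH703.Cone.Exist
import Pool.Agent.TH703.Cone.Trans

set_option autoImplicit false

/-! # HU, B1 and B2: compactness and convergence of the divergence integrals -/

open MeasureTheory Set Metric Filter Topology
open scoped ENNReal Real

noncomputable section

namespace Pool.Agent.TH509.HU

open Pool.Agent.TH304.MI Pool.Agent.TH703.HU

lemma sc_one {b : ℕ} (p : PP b) : sc 1 p = p := by
  ext i
  simp [sc]

lemma ple_iff {b : ℕ} {Ω E : Set (PP b)} {C : ℝ} (h : PLe 1 Ω E C) :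
    Pool.Agent.TH703.Cone.PLE Ω E C := by
  intro φ hφ
  exact h φ ⟨hφ.c1, hφ.cs, hφ.sub, fun x => by rw [sc_one]; exact hφ.le x⟩

lemma ple_nonneg {b : ℕ} {Ω E : Set (PP b)} {C : ℝ} (h : PLe 1 Ω E C) : 0 ≤ C := by
  have ht : Fld 1 Ω (fun _ : PP b => (0 : PP b)) := by
    refine ⟨contDiff_const, HasCompactSupport.zero, ?_, fun x => by rw [sc_one]; simp⟩
    have : tsupport (fun _ : PP b => (0 : PP b)) = ∅ := by
      rw [tsupport_eq_empty_iff]; rfl
    rw [this]
    exact empty_subset _
  have h2 := h _ ht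
  have h3 : ∀ x : PP b, dv (fun _ : PP b => (0 : PP b)) x = 0 := by
    intro x
    unfold dv
    simp
  simp only [h3, integral_zero] at h2
  exact h2

theorem b1 : S_B1 := by
  intro b Ω hΩ hc hb F C hFm hFΩ hFP
  have hΩfin : volume Ω ≠ ⊤ := hb.measure_lt_top.ne
  have hC : 0 ≤ C := ple_nonneg (hFP 0)
  obtain ⟨f, hf, hf01, hf0, φ, hφ, hlim⟩ :=
    Pool.Agent.TH703.Cone.Exist.weak_sets hΩ.measurableSet hΩfin F hFm hFΩ
  have hst := Pool.Agent.TH703.Cone.Exist.strong (Pool.Agent.TH703.Cone.t1 (PP b)) hΩ hc hb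
    (A := fun k => F (φ k)) (fun k => hFm _) (fun k => hFΩ _)
    hC (fun k => ple_iff (hFP _)) hf hf01 hf0 hlim
  set A : Set (PP b) := {x | f x = 1} with hA
  have hAm : MeasurableSet A := hf (measurableSet_singleton 1)
  have hAΩ : A ⊆ Ω := by
    intro x hx
    by_contra hcon
    have h2 := hf0 x hcon
    have h3 : f x = 1 := hx
    rw [h3] at h2
    exact one_ne_zero h2
  have hAfin : volume A ≠ ⊤ := ne_top_of_le_ne_top hΩfin (measure_mono hAΩ)
  refine ⟨A, φ, hAm, hAΩ, hφ, ?_⟩
  have hFfin : ∀ k, volume (F k) ≠ ⊤ := fun k =>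
    ne_top_of_le_ne_top hΩfin (measure_mono (hFΩ k))
  -- first part
  have l1 : Tendsto (fun k => volume.real (F (φ k) \ A)) atTop (𝓝 0) := by
    have h1 := hlim _ (Pool.Agent.TH703.Cone.Exist.BM.ind hAm.compl)
    have e1 : ∀ k, ∫ y in F (φ k), (Aᶜ).indicator (fun _ => (1 : ℝ)) y =
        volume.real (F (φ k) \ A) := by
      intro k
      rw [setIntegral_indicator hAm.compl, ← sdiff_eq]; simp
    have e2 : ∫ y, (Aᶜ).indicator (fun _ => (1 : ℝ)) y * f y = 0 := by
      rw [← integral_zero (PP b) ℝ (μ := volume)]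
      refine integral_congr_ae ?_
      filter_upwards [hst] with x hx
      by_cases h : f x = 1
      · have : x ∉ Aᶜ := fun h2 => h2 h
        rw [indicator_of_notMem this, zero_mul]
      · rcases mul_eq_zero.1 hx with h3 | h3
        · rw [h3, mul_zero]
        · exact absurd (by linarith) h
    simp only [e1, e2] at h1
    exact h1
  have l2 : Tendsto (fun k => volume.real (A \ F (φ k))) atTop (𝓝 0) := by
    have h1 := hlim _ (Pool.Agent.TH703.Cone.Exist.BM.ind hAm)
    have e1 : ∀ k, ∫ y in F (φ k), A.indicator (fun _ => (1 : ℝ)) y =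
        volume.real (F (φ k) ∩ A) := by
      intro k
      rw [setIntegral_indicator hAm]; simp
    have e2 : ∫ y, A.indicator (fun _ => (1 : ℝ)) y * f y = volume.real A := by
      have : volume.real A = ∫ y, A.indicator (fun _ => (1 : ℝ)) y := by
        rw [integral_indicator hAm]; simp
      rw [this]
      refine integral_congr_ae (Eventually.of_forall fun x => ?_)
      by_cases hx : x ∈ A
      · have h2 : f x = 1 := hx
        simp only [h2, mul_one]
      · simp only [indicator_of_notMem hx, zero_mul]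
    simp only [e1, e2] at h1
    have h2 : Tendsto (fun k => volume.real A - volume.real (F (φ k) ∩ A)) atTop
        (𝓝 (volume.real A - volume.real A)) := h1.const_sub _
    rw [sub_self] at h2
    refine h2.congr fun k => ?_
    have h3 := measureReal_inter_add_sdiff (μ := volume) (s := A) (hFm (φ k)) hAfin
    rw [inter_comm] at h3
    linarith
  have l3 : Tendsto (fun k => volume.real (F (φ k) \ A) + volume.real (A \ F (φ k))) atTop
      (𝓝 0) := by
    simpa using l1.add l2
  have l4 := ENNReal.tendsto_ofReal l3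
  rw [ENNReal.ofReal_zero] at l4
  refine tendsto_of_tendsto_of_tendsto_of_le_of_le tendsto_const_nhds l4
    (fun _ => zero_le) fun k => ?_
  have h1 : volume (F (φ k) \ A) ≠ ⊤ := ne_top_of_le_ne_top (hFfin _) (measure_mono sdiff_subset)
  have h2 : volume (A \ F (φ k)) ≠ ⊤ := ne_top_of_le_ne_top hAfin (measure_mono sdiff_subset)
  rw [ENNReal.ofReal_add measureReal_nonneg measureReal_nonneg]
  unfold Measure.real
  rw [ENNReal.ofReal_toReal h1, ENNReal.ofReal_toReal h2, Set.symmDiff_def]
  exact measure_union_le _ _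

theorem b2 : S_B2 := by
  intro b F F0 hF hF0 hlim φ hφ hcs
  obtain ⟨hm, K, hK⟩ := Pool.Agent.TH703.Cone.Exist.BM.dv hφ hcs
  have hdv : (Pool.Agent.TH703.Cone.dv φ) = dv φ := rfl
  rw [hdv] at hm hK
  have hc : Continuous (dv φ) := by
    let L : (PP b →L[ℝ] PP b) →ₗ[ℝ] ℝ :=
      (LinearMap.trace ℝ (PP b)) ∘ₗ ContinuousLinearMap.coeLM ℝ
    have hL : Continuous L := L.continuous_of_finiteDimensional
    exact hL.comp (hφ.continuous_fderiv one_ne_zero)
  have hs : HasCompactSupport (dv φ) := by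
    let L : (PP b →L[ℝ] PP b) →ₗ[ℝ] ℝ :=
      (LinearMap.trace ℝ (PP b)) ∘ₗ ContinuousLinearMap.coeLM ℝ
    exact (hcs.fderiv (𝕜 := ℝ)).comp_left (g := L) (map_zero L)
  have hint : Integrable (dv φ) := hc.integrable_of_hasCompactSupport hs
  have hK0 : 0 ≤ K := (abs_nonneg _).trans (hK 0)
  -- eventually finite
  have hl2 : Tendsto (fun k => K * (volume (symmDiff (F k) F0)).toReal) atTop (𝓝 0) := by
    have := (ENNReal.tendsto_toReal ENNReal.zero_ne_top).comp hlim
    have h2 := this.const_mul K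
    simpa using h2
  rw [tendsto_iff_norm_sub_tendsto_zero]
  refine squeeze_zero' (Eventually.of_forall fun k => norm_nonneg _) ?_ hl2
  have hev : ∀ᶠ k in atTop, volume (symmDiff (F k) F0) < 1 :=
    hlim.eventually (gt_mem_nhds (by norm_num))
  filter_upwards [hev] with k hk
  have hfin : volume (symmDiff (F k) F0) ≠ ⊤ := (hk.trans_le le_top).ne
  have e1 : (∫ x in F k, dv φ x) - ∫ x in F0, dv φ x =
      (∫ x in F k \ F0, dv φ x) - ∫ x in F0 \ F k, dv φ x := by
    have h1 := integral_inter_add_sdiff (μ := volume) (f := dv φ) (s := F k) hF0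
      hint.integrableOn
    have h2 := integral_inter_add_sdiff (μ := volume) (f := dv φ) (s := F0) (hF k)
      hint.integrableOn
    rw [inter_comm] at h2
    linarith
  have s1 : F k \ F0 ⊆ symmDiff (F k) F0 := by
    rw [Set.symmDiff_def]; exact subset_union_left
  have s2 : F0 \ F k ⊆ symmDiff (F k) F0 := by
    rw [Set.symmDiff_def]; exact subset_union_right
  have f1 : volume (F k \ F0) ≠ ⊤ := ne_top_of_le_ne_top hfin (measure_mono s1)
  have f2 : volume (F0 \ F k) ≠ ⊤ := ne_top_of_le_ne_top hfin (measure_mono s2)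
  have b1 : ‖∫ x in F k \ F0, dv φ x‖ ≤ K * volume.real (F k \ F0) :=
    norm_setIntegral_le_of_norm_le_const f1.lt_top fun x _ => by
      rw [Real.norm_eq_abs]; exact hK x
  have b2 : ‖∫ x in F0 \ F k, dv φ x‖ ≤ K * volume.real (F0 \ F k) :=
    norm_setIntegral_le_of_norm_le_const f2.lt_top fun x _ => by
      rw [Real.norm_eq_abs]; exact hK x
  have e2 : volume.real (F k \ F0) + volume.real (F0 \ F k) =
      (volume (symmDiff (F k) F0)).toReal := by
    rw [Set.symmDiff_def, measure_union disjoint_sdiff_sdiff (hF0.diff (hF k)),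
      ENNReal.toReal_add f1 f2]
    rfl
  rw [e1, ← e2, mul_add]
  exact (norm_sub_le _ _).trans (add_le_add b1 b2)

end Pool.Agent.TH509.HU
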